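import Mathlib

/-! Semisparse subgroups of string C-groups: definitions and the strong intersection form. -/

open Pointwise

namespace Pool.Agent.Q180.SC

variable {G : Type*} [Group G]

/-- The subgroup generated by the `ρ i` with `i ∈ I`. -/
def par {n : ℕ} (ρ : Fin n → G) (I : Set (Fin n)) : Subgroup G := Subgroup.closure (ρ '' I)

/-- The elements `ρ 0, …, ρ (n-1)` are the distinguished generators of a string C-group. -/
structure IsStringC {n : ℕ} (ρ : Fin n → G) : Prop where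
  inv : ∀ i, ρ i ≠ 1 ∧ ρ i * ρ i = 1
  comm : ∀ i j : Fin n, (i : ℕ) + 2 ≤ j → (ρ i * ρ j) ^ 2 = 1
  inter : ∀ I J : Set (Fin n), par ρ I ⊓ par ρ J = par ρ (I ∩ J)

/-- The conjugate `Σ^φ = φ⁻¹ Σ φ`. -/
def cj (S : Subgroup G) (φ : G) : Subgroup G := S.map (MulAut.conj φ⁻¹).toMonoidHom

/-- `S` is semisparse with respect to the generators `ρ 0, …, ρ (n-1)`. -/
structure Semisparse {n : ℕ} (ρ : Fin n → G) (S : Subgroup G) : Prop where
  c1 : ∀ φ ∈ par ρ Set.univ, ∀ i : Fin n,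
    (cj S φ : Set G) ∩ ((par ρ {l | l ≠ i} : Set G) * {ρ i}) = ∅
  c2 : ∀ φ ∈ par ρ Set.univ, ∀ i k j : Fin n, i < k → k < j →
    (par ρ {l | i < l} : Set G) ∩ ((par ρ {l | l < j} : Set G) * (cj S φ : Set G)) ⊆
      (par ρ {l | l ≠ k} : Set G) *
        ((par ρ {l | i < l} : Set G) ∩ (par ρ {l | l < j} : Set G)) * (cj S φ : Set G)
  c3 : ∀ i : Fin n, (i : ℕ) + 1 < n →
    (par ρ {l | i < l} : Set G) ∩
      ((par ρ {l | (l : ℕ) < (i : ℕ) + 1} : Set G) * (S : Set G)) ⊆ (S : Set G)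

lemma mem_cj {S : Subgroup G} {φ z : G} : z ∈ cj S φ ↔ φ * z * φ⁻¹ ∈ S := by
  unfold cj
  rw [Subgroup.mem_map]
  constructor
  · rintro ⟨x, hx, rfl⟩
    simpa [mul_assoc] using hx
  · intro h
    exact ⟨φ * z * φ⁻¹, h, by simp [mul_assoc]⟩

lemma cj_one (S : Subgroup G) : cj S 1 = S := by
  ext z
  rw [mem_cj]
  simp

lemma par_mono {n : ℕ} (ρ : Fin n → G) {I J : Set (Fin n)} (h : I ⊆ J) : par ρ I ≤ par ρ J :=
  Subgroup.closure_mono (Set.image_mono h)

lemma mem_par {n : ℕ} (ρ : Fin n → G) {I : Set (Fin n)} {i : Fin n} (h : i ∈ I) :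
    ρ i ∈ par ρ I := Subgroup.subset_closure ⟨i, h, rfl⟩

lemma par_empty {n : ℕ} (ρ : Fin n → G) {I : Set (Fin n)} (h : I = ∅) : par ρ I = ⊥ := by
  unfold par
  rw [h, Set.image_empty, Subgroup.closure_empty]

lemma par_comp {n m : ℕ} (ρ : Fin n → G) (f : Fin m → Fin n) (I : Set (Fin m)) :
    par (fun i => ρ (f i)) I = par ρ (f '' I) := by
  unfold par
  rw [Set.image_image]

section
variable {n : ℕ} {ρ : Fin n → G}

lemma commute_far (hi : ∀ i, ρ i * ρ i = 1)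
    (hc : ∀ i j : Fin n, (i : ℕ) + 2 ≤ j → (ρ i * ρ j) ^ 2 = 1) {i k j : Fin n}
    (h1 : i < k) (h2 : k < j) : ρ i * ρ j = ρ j * ρ i := by
  have h := hc i j (by
    have a : (i : ℕ) < k := h1
    have b : (k : ℕ) < j := h2
    omega)
  have e1 : (ρ i)⁻¹ = ρ i := inv_eq_of_mul_eq_one_left (hi i)
  have e2 : (ρ j)⁻¹ = ρ j := inv_eq_of_mul_eq_one_left (hi j)
  rw [sq] at h
  have := eq_inv_of_mul_eq_one_left h
  rw [this, mul_inv_rev, e1, e2]

lemma comm_lt_gt (hi : ∀ i, ρ i * ρ i = 1)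
    (hc : ∀ i j : Fin n, (i : ℕ) + 2 ≤ j → (ρ i * ρ j) ^ 2 = 1) (k : Fin n) {a b : G}
    (ha : a ∈ par ρ {l | l < k}) (hb : b ∈ par ρ {l | k < l}) : a * b = b * a := by
  have h1 : par ρ {l | l < k} ≤ Subgroup.centralizer (par ρ {l | k < l} : Set G) := by
    unfold par
    rw [Subgroup.closure_le]
    rintro x ⟨i, hi', rfl⟩
    rw [SetLike.mem_coe, Subgroup.mem_centralizer_iff]
    intro y hy
    have h2 : par ρ {l | k < l} ≤ Subgroup.centralizer ({ρ i} : Set G) := by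
      unfold par
      rw [Subgroup.closure_le]
      rintro z ⟨j, hj, rfl⟩
      rw [SetLike.mem_coe, Subgroup.mem_centralizer_iff]
      intro w hw
      rw [Set.mem_singleton_iff] at hw
      rw [hw]
      exact commute_far hi hc hi' hj
    have h3 := h2 hy
    rw [Subgroup.mem_centralizer_iff] at h3
    exact (h3 _ (Set.mem_singleton _)).symm
  have h4 := h1 ha
  rw [Subgroup.mem_centralizer_iff] at h4
  exact (h4 b hb).symm

lemma decomp (hi : ∀ i, ρ i * ρ i = 1)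
    (hc : ∀ i j : Fin n, (i : ℕ) + 2 ≤ j → (ρ i * ρ j) ^ 2 = 1) (k : Fin n) {x : G}
    (hx : x ∈ par ρ {l | l ≠ k}) :
    ∃ a ∈ par ρ {l | l < k}, ∃ b ∈ par ρ {l | k < l}, x = a * b := by
  unfold par at hx
  induction hx using Subgroup.closure_induction with
  | mem x hx =>
    obtain ⟨i, hi', rfl⟩ := hx
    rcases lt_or_gt_of_ne (show i ≠ k from hi') with h | h
    · exact ⟨ρ i, mem_par ρ h, 1, one_mem _, by simp⟩
    · exact ⟨1, one_mem _, ρ i, mem_par ρ h, by simp⟩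
  | one => exact ⟨1, one_mem _, 1, one_mem _, by simp⟩
  | mul x y _ _ ihx ihy =>
    obtain ⟨a, ha, b, hb, rfl⟩ := ihx
    obtain ⟨c, hc', d, hd, rfl⟩ := ihy
    refine ⟨a * c, mul_mem ha hc', b * d, mul_mem hb hd, ?_⟩
    have := comm_lt_gt hi hc k hc' hb
    calc a * b * (c * d) = a * (b * c) * d := by group
      _ = a * (c * b) * d := by rw [this]
      _ = a * c * (b * d) := by group
  | inv x _ ih =>
    obtain ⟨a, ha, b, hb, rfl⟩ := ih
    refine ⟨a⁻¹, inv_mem ha, b⁻¹, inv_mem hb, ?_⟩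
    rw [mul_inv_rev]
    exact (comm_lt_gt hi hc k (inv_mem ha) (inv_mem hb)).symm

/-- The strong form of conditions 2 and 3. -/
lemma strong (hi : ∀ i, ρ i * ρ i = 1)
    (hc : ∀ i j : Fin n, (i : ℕ) + 2 ≤ j → (ρ i * ρ j) ^ 2 = 1)
    (K : G → Subgroup G)
    (hK : ∀ φ, ∀ y ∈ par ρ Set.univ, ∀ z, z ∈ K (φ * y⁻¹) ↔ y⁻¹ * z * y ∈ K φ)
    (h2 : ∀ φ, ∀ i k j : Fin n, i < k → k < j → ∀ g ∈ par ρ {l | i < l},
      ∀ h ∈ par ρ {l | l < j}, ∀ s ∈ K φ, g = h * s →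
      ∃ x ∈ par ρ {l | l ≠ k}, ∃ y, y ∈ par ρ {l | i < l} ∧ y ∈ par ρ {l | l < j} ∧
        ∃ t ∈ K φ, g = x * y * t)
    (h3 : ∀ φ, ∀ i : Fin n, (i : ℕ) + 1 < n → ∀ g ∈ par ρ {l | i < l},
      ∀ h ∈ par ρ {l | (l : ℕ) < (i : ℕ) + 1}, ∀ s ∈ K φ, g = h * s → g ∈ K φ) :
    ∀ d : ℕ, ∀ i j : Fin n, i < j → (j : ℕ) ≤ i + d → ∀ φ, ∀ g ∈ par ρ {l | i < l},
      ∀ h ∈ par ρ {l | l < j}, ∀ s ∈ K φ, g = h * s →
      ∃ y, y ∈ par ρ {l | i < l} ∧ y ∈ par ρ {l | l < j} ∧ ∃ t ∈ K φ, g = y * t := by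
  intro d
  induction d with
  | zero =>
    intro i j hij hd
    exfalso
    have : (i : ℕ) < j := hij
    omega
  | succ d ih =>
    intro i j hij hd φ g hg h hh s hs hgs
    have hij' : (i : ℕ) < j := hij
    by_cases hj : (j : ℕ) = i + 1
    · have hh' : h ∈ par ρ {l | (l : ℕ) < (i : ℕ) + 1} := by
        refine par_mono ρ ?_ hh
        intro l hl
        have : (l : ℕ) < j := hl
        simp only [Set.mem_ofPred_eq]
        omega
      have hgK := h3 φ i (by have := j.2; omega) g hg h hh' s hs hgs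
      exact ⟨1, one_mem _, one_mem _, g, hgK, by simp⟩
    · have hk : (i : ℕ) + 1 < n := by have := j.2; omega
      set k : Fin n := ⟨i + 1, hk⟩ with hkdef
      have hik : i < k := by
        rw [Fin.lt_def]; simp [hkdef]
      have hkj : k < j := by
        rw [Fin.lt_def]; simp only [hkdef]; omega
      obtain ⟨x, hx, y, hy1, hy2, t, ht, hgx⟩ := h2 φ i k j hik hkj g hg h hh s hs hgs
      have hyu : y ∈ par ρ Set.univ := par_mono ρ (Set.subset_univ _) hy1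
      have hmem : ∀ z, z ∈ K (φ * y⁻¹) ↔ y⁻¹ * z * y ∈ K φ := hK φ y hyu
      obtain ⟨a, ha, b, hb, hab⟩ := decomp hi hc k hx
      have hbi : b ∈ par ρ {l | i < l} := par_mono ρ (fun l hl => lt_trans hik hl) hb
      -- first application
      have e1 : b⁻¹ * (g * y⁻¹) = a * (y * t * y⁻¹) := by
        rw [hgx, hab, comm_lt_gt hi hc k ha hb]
        group
      have m1 : y * t * y⁻¹ ∈ K (φ * y⁻¹) := by
        rw [hmem]
        have : y⁻¹ * (y * t * y⁻¹) * y = t := by group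
        rw [this]; exact ht
      obtain ⟨u, hu1, hu2, t', ht', hut⟩ := ih i k hik (by simp [hkdef]; omega) (φ * y⁻¹)
        (b⁻¹ * (g * y⁻¹)) (mul_mem (inv_mem hbi) (mul_mem hg (inv_mem hy1))) a ha _ m1 e1
      -- second application
      have hu2' : u ∈ par ρ {l | l < j} := par_mono ρ (fun l hl => lt_trans hl hkj) hu2
      have hub : u * b = b * u := comm_lt_gt hi hc k hu2 hb
      have e2 : b = (u⁻¹ * h * y⁻¹) * (y * s * y⁻¹ * t'⁻¹) := by
        have : g * y⁻¹ = b * u * t' := by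
          rw [mul_assoc, ← hut]; group
        have h5 : b = u⁻¹ * (g * y⁻¹) * t'⁻¹ := by
          rw [this, ← hub]; group
        rw [h5, hgs]; group
      have m2 : y * s * y⁻¹ * t'⁻¹ ∈ K (φ * y⁻¹) := by
        refine mul_mem ?_ (inv_mem ht')
        rw [hmem]
        have : y⁻¹ * (y * s * y⁻¹) * y = s := by group
        rw [this]; exact hs
      obtain ⟨v, hv1, hv2, t2, ht2, hvt⟩ := ih k j hkj (by simp [hkdef]; omega) (φ * y⁻¹) b hb
        (u⁻¹ * h * y⁻¹) (mul_mem (mul_mem (inv_mem hu2') hh) (inv_mem hy2)) _ m2 e2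
      have hv1' : v ∈ par ρ {l | i < l} := par_mono ρ (fun l hl => lt_trans hik hl) hv1
      refine ⟨u * v * y, mul_mem (mul_mem hu1 hv1') hy1, mul_mem (mul_mem hu2' hv2) hy2,
        y⁻¹ * (t2 * t') * y, ?_, ?_⟩
      · rw [← hmem]
        exact mul_mem ht2 ht'
      · have : g * y⁻¹ = b * u * t' := by
          rw [mul_assoc, ← hut]; group
        have h6 : g = b * u * t' * y := by rw [← this]; group
        rw [h6, ← hub, hvt]; group

end

end Pool.Agent.Q180.SC
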