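import Pool.Agent.Q180.SC.Base

/-! The sufficiency theorem for semisparse subgroups. -/

open Pointwise

namespace Pool.Agent.Q180.SC

variable {G : Type*} [Group G]

lemma cj_conj {S : Subgroup G} {W : Subgroup G} (φ y : G) (hy : y ∈ W) (z : G) :
    z ∈ cj S (φ * y⁻¹) ⊓ W ↔ y⁻¹ * z * y ∈ cj S φ ⊓ W := by
  rw [Subgroup.mem_inf, Subgroup.mem_inf, mem_cj, mem_cj]
  have e : φ * y⁻¹ * z * (φ * y⁻¹)⁻¹ = φ * (y⁻¹ * z * y) * φ⁻¹ := by group
  rw [e]
  constructor
  · rintro ⟨h1, h2⟩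
    exact ⟨h1, mul_mem (mul_mem (inv_mem hy) h2) hy⟩
  · rintro ⟨h1, h2⟩
    refine ⟨h1, ?_⟩
    have : z = y * (y⁻¹ * z * y) * y⁻¹ := by group
    rw [this]
    exact mul_mem (mul_mem hy h2) (inv_mem hy)

/-- The strong form for a family of semisparse subgroups. -/
lemma strong_family {n : ℕ} {ρ : Fin n → G} (hi : ∀ i, ρ i * ρ i = 1)
    (hc : ∀ i j : Fin n, (i : ℕ) + 2 ≤ j → (ρ i * ρ j) ^ 2 = 1) (S : Subgroup G)
    (hS : ∀ φ, Semisparse ρ (cj S φ ⊓ par ρ Set.univ)) {i j : Fin n} (hij : i < j) (φ : G)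
    {g h s : G} (hg : g ∈ par ρ {l | i < l}) (hh : h ∈ par ρ {l | l < j})
    (hs : s ∈ cj S φ) (hs' : s ∈ par ρ Set.univ) (e : g = h * s) :
    ∃ y, y ∈ par ρ {l | i < l} ∧ y ∈ par ρ {l | l < j} ∧
      ∃ t, t ∈ cj S φ ∧ t ∈ par ρ Set.univ ∧ g = y * t := by
  have key := strong hi hc (fun φ => cj S φ ⊓ par ρ Set.univ)
    (fun φ y hy z => cj_conj φ y hy z)
    (by
      intro φ i k j hik hkj g hg h hh s hs e
      have h1 := (hS φ).c2 1 (one_mem _) i k j hik hkj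
      rw [cj_one] at h1
      obtain ⟨w, hw, t, ht, hwt⟩ := h1 ⟨hg, Set.mem_mul.2 ⟨h, hh, s, hs, e.symm⟩⟩
      obtain ⟨x, hx, y, hy, hxy⟩ := hw
      refine ⟨x, hx, y, hy.1, hy.2, t, ht, ?_⟩
      rw [← hwt, ← hxy])
    (by
      intro φ i hi' g hg h hh s hs e
      exact (hS φ).c3 i hi' ⟨hg, Set.mem_mul.2 ⟨h, hh, s, hs, e.symm⟩⟩)
    ((j : ℕ)) i j hij (by omega) φ g hg h hh s ⟨hs, hs'⟩ e
  obtain ⟨y, hy1, hy2, t, ht, e'⟩ := key
  exact ⟨y, hy1, hy2, t, ht.1, ht.2, e'⟩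

section
variable {m : ℕ} {ρ : Fin (m + 1) → G}

lemma succ_gt (i : Fin m) : Fin.succ '' {l : Fin m | i < l} = {l | i.succ < l} := by
  ext l
  constructor
  · rintro ⟨k, hk, rfl⟩
    exact Fin.succ_lt_succ_iff.2 hk
  · intro hl
    have hl0 : l ≠ 0 := by
      rintro rfl
      exact absurd hl (Fin.not_lt_zero _)
    obtain ⟨k, rfl⟩ := Fin.exists_succ_eq.2 hl0
    exact ⟨k, Fin.succ_lt_succ_iff.1 hl, rfl⟩

lemma succ_univ : Fin.succ '' (Set.univ : Set (Fin m)) = {l | 0 < l} := by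
  ext l
  constructor
  · rintro ⟨k, _, rfl⟩
    exact Fin.succ_pos k
  · intro hl
    obtain ⟨k, rfl⟩ := Fin.exists_succ_eq.2 (ne_of_gt hl)
    exact ⟨k, trivial, rfl⟩

lemma succ_lt (j : Fin m) :
    Fin.succ '' {l : Fin m | l < j} = {l | 0 < l} ∩ {l | l < j.succ} := by
  ext l
  constructor
  · rintro ⟨k, hk, rfl⟩
    exact ⟨Fin.succ_pos k, Fin.succ_lt_succ_iff.2 hk⟩
  · rintro ⟨hl, hl2⟩
    obtain ⟨k, rfl⟩ := Fin.exists_succ_eq.2 (ne_of_gt hl)
    exact ⟨k, Fin.succ_lt_succ_iff.1 hl2, rfl⟩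

lemma cast_univ : Fin.castSucc '' (Set.univ : Set (Fin m)) = {l | l < Fin.last m} := by
  ext l
  constructor
  · rintro ⟨k, _, rfl⟩
    exact Fin.castSucc_lt_last k
  · intro hl
    obtain ⟨k, rfl⟩ := Fin.exists_castSucc_eq.2 (ne_of_lt hl)
    exact ⟨k, trivial, rfl⟩

lemma cast_gt (i : Fin m) :
    Fin.castSucc '' {l : Fin m | i < l} = {l | i.castSucc < l} ∩ {l | l < Fin.last m} := by
  ext l
  constructor
  · rintro ⟨k, hk, rfl⟩
    exact ⟨Fin.castSucc_lt_castSucc_iff.2 hk, Fin.castSucc_lt_last k⟩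
  · rintro ⟨hl, hl2⟩
    obtain ⟨k, rfl⟩ := Fin.exists_castSucc_eq.2 (ne_of_lt hl2)
    exact ⟨k, Fin.castSucc_lt_castSucc_iff.1 hl, rfl⟩

lemma cast_lt (j : Fin m) : Fin.castSucc '' {l : Fin m | l < j} = {l | l < j.castSucc} := by
  ext l
  constructor
  · rintro ⟨k, hk, rfl⟩
    exact Fin.castSucc_lt_castSucc_iff.2 hk
  · intro hl
    have : l < Fin.last m := lt_trans hl (Fin.castSucc_lt_last j)
    obtain ⟨k, rfl⟩ := Fin.exists_castSucc_eq.2 (ne_of_lt this)
    exact ⟨k, Fin.castSucc_lt_castSucc_iff.1 hl, rfl⟩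

theorem main (hm : 1 ≤ m) (hρ : IsStringC ρ) (hgen : par ρ Set.univ = ⊤) (S : Subgroup G)
    (hA : ∀ φ : G, Semisparse (fun i : Fin m => ρ i.succ)
      (cj S φ ⊓ par (fun i : Fin m => ρ i.succ) Set.univ))
    (hB : ∀ φ : G, Semisparse (fun i : Fin m => ρ i.castSucc)
      (cj S φ ⊓ par (fun i : Fin m => ρ i.castSucc) Set.univ))
    (hC : ∀ φ : G, (cj S φ : Set G) ∩
        ((par (fun i : Fin m => ρ i.succ) Set.univ : Set G) *
          (par (fun i : Fin m => ρ i.castSucc) Set.univ : Set G)) =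
      ((cj S φ : Set G) ∩ (par (fun i : Fin m => ρ i.succ) Set.univ : Set G)) *
        ((cj S φ : Set G) ∩ (par (fun i : Fin m => ρ i.castSucc) Set.univ : Set G))) :
    Semisparse ρ S := by
  have hi : ∀ i, ρ i * ρ i = 1 := fun i => (hρ.inv i).2
  have hc := hρ.comm
  have e0 : par (fun i : Fin m => ρ i.succ) Set.univ = par ρ {l | 0 < l} := by
    rw [par_comp, succ_univ]
  have e1 : par (fun i : Fin m => ρ i.castSucc) Set.univ = par ρ {l | l < Fin.last m} := by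
    rw [par_comp, cast_univ]
  have hi0 : ∀ i : Fin m, ρ i.succ * ρ i.succ = 1 := fun i => hi _
  have hc0 : ∀ i j : Fin m, (i : ℕ) + 2 ≤ j → (ρ i.succ * ρ j.succ) ^ 2 = 1 := by
    intro i j h
    exact hc _ _ (by rw [Fin.val_succ, Fin.val_succ]; omega)
  have hi1 : ∀ i : Fin m, ρ i.castSucc * ρ i.castSucc = 1 := fun i => hi _
  have hc1 : ∀ i j : Fin m, (i : ℕ) + 2 ≤ j → (ρ i.castSucc * ρ j.castSucc) ^ 2 = 1 := by
    intro i j h
    exact hc _ _ (by rw [Fin.val_castSucc, Fin.val_castSucc]; omega)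
  -- the strong form for `S`
  have main : ∀ (i j : Fin (m + 1)), i < j → ∀ φ g h s, g ∈ par ρ {l | i < l} →
      h ∈ par ρ {l | l < j} → s ∈ cj S φ → g = h * s →
      ∃ y, y ∈ par ρ {l | i < l} ∧ y ∈ par ρ {l | l < j} ∧ ∃ t ∈ cj S φ, g = y * t := by
    intro i j hij φ g h s hg hh hs e
    have hg0 : g ∈ par ρ {l | 0 < l} := par_mono ρ (fun l hl => lt_of_le_of_lt (Fin.zero_le _) hl) hg
    have hh1 : h ∈ par ρ {l | l < Fin.last m} :=
      par_mono ρ (fun l hl => lt_of_lt_of_le hl (Fin.le_last _)) hh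
    have hCφ := hC φ
    rw [e0, e1] at hCφ
    have hmem : s⁻¹ ∈ (cj S φ : Set G) ∩ ((par ρ {l | 0 < l} : Set G) *
        (par ρ {l | l < Fin.last m} : Set G)) := by
      refine ⟨inv_mem hs, Set.mem_mul.2 ⟨g⁻¹, inv_mem hg0, h, hh1, ?_⟩⟩
      rw [e]; group
    rw [hCφ] at hmem
    obtain ⟨a, ⟨ha, ha0⟩, b, ⟨hb, hb1⟩, hab⟩ := Set.mem_mul.1 hmem
    have hd : g * a = h * b⁻¹ := by
      have : a * b = g⁻¹ * h := by
        rw [hab, e]; group
      calc g * a = g * (a * b) * b⁻¹ := by group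
        _ = h * b⁻¹ := by rw [this]; group
    have hd0 : g * a ∈ par ρ {l | 0 < l} := mul_mem hg0 ha0
    have hd1 : g * a ∈ par ρ {l | l < Fin.last m} := by
      rw [hd]; exact mul_mem hh1 (inv_mem hb1)
    have hd2 : g * a ∈ par ρ ({l | 0 < l} ∩ {l | l < Fin.last m}) := by
      rw [← hρ.inter]; exact ⟨hd0, hd1⟩
    -- step 1
    have step1 : ∃ e' ∈ par ρ ({l | 0 < l} ∩ {l | l < j}), ∃ t ∈ cj S φ,
        t ∈ par ρ {l | 0 < l} ∧ g * a = e' * t := by
      by_cases hj : j = Fin.last m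
      · subst hj
        exact ⟨g * a, hd2, 1, one_mem _, one_mem _, by simp⟩
      · obtain ⟨j', rfl⟩ := Fin.exists_castSucc_eq.2 hj
        have hj'0 : (⟨0, hm⟩ : Fin m) < j' := by
          have h1 : (i : ℕ) < (j' : ℕ) := by simpa [Fin.lt_def] using hij
          rw [Fin.lt_def]
          simp only
          omega
        have q1 : g * a ∈ par (fun i : Fin m => ρ i.castSucc) {l | (⟨0, hm⟩ : Fin m) < l} := by
          rw [par_comp, cast_gt]
          exact hd2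
        have q2 : h ∈ par (fun i : Fin m => ρ i.castSucc) {l | l < j'} := by
          rw [par_comp, cast_lt]
          exact hh
        have q3 : b⁻¹ ∈ par (fun i : Fin m => ρ i.castSucc) Set.univ := by
          rw [e1]; exact inv_mem hb1
        obtain ⟨y, hy1, hy2, t, ht, ht2, hyt⟩ := strong_family hi1 hc1 S hB hj'0 φ q1 q2
          (inv_mem hb) q3 hd
        rw [par_comp, cast_gt] at hy1
        rw [par_comp, cast_lt] at hy2
        have hy0 : y ∈ par ρ {l | 0 < l} := par_mono ρ (fun l hl => hl.1) hy1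
        refine ⟨y, ?_, t, ht, ?_, hyt⟩
        · rw [← hρ.inter]; exact ⟨hy0, hy2⟩
        · have : t = y⁻¹ * (g * a) := by rw [hyt]; group
          rw [this]
          exact mul_mem (inv_mem hy0) hd0
    obtain ⟨f, hf, t, ht, ht0, hft⟩ := step1
    have hgf : g = f * (t * a⁻¹) := by
      calc g = g * a * a⁻¹ := by group
        _ = f * (t * a⁻¹) := by rw [hft]; group
    by_cases hi0' : i = 0
    · subst hi0'
      exact ⟨f, par_mono ρ (fun l hl => hl.1) hf, par_mono ρ (fun l hl => hl.2) hf,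
        t * a⁻¹, mul_mem ht (inv_mem ha), hgf⟩
    · obtain ⟨i', rfl⟩ := Fin.exists_succ_eq.2 hi0'
      have hj0 : j ≠ 0 := by
        rintro rfl
        exact absurd hij (Fin.not_lt_zero _)
      obtain ⟨j', rfl⟩ := Fin.exists_succ_eq.2 hj0
      have q1 : g ∈ par (fun i : Fin m => ρ i.succ) {l | i' < l} := by
        rw [par_comp, succ_gt]; exact hg
      have q2 : f ∈ par (fun i : Fin m => ρ i.succ) {l | l < j'} := by
        rw [par_comp, succ_lt]; exact hf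
      have q3 : t * a⁻¹ ∈ par (fun i : Fin m => ρ i.succ) Set.univ := by
        rw [e0]; exact mul_mem ht0 (inv_mem ha0)
      obtain ⟨y, hy1, hy2, t', ht', _, hyt⟩ := strong_family hi0 hc0 S hA
        (Fin.succ_lt_succ_iff.1 hij) φ q1 q2 (mul_mem ht (inv_mem ha)) q3 hgf
      rw [par_comp, succ_gt] at hy1
      rw [par_comp, succ_lt] at hy2
      exact ⟨y, hy1, par_mono ρ (fun l hl => hl.2) hy2, t', ht', hyt⟩
  -- condition 3 for all conjugates
  have main3 : ∀ φ, ∀ i : Fin (m + 1), (i : ℕ) + 1 < m + 1 → ∀ g ∈ par ρ {l | i < l},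
      ∀ h ∈ par ρ {l | (l : ℕ) < (i : ℕ) + 1}, ∀ s ∈ cj S φ, g = h * s → g ∈ cj S φ := by
    intro φ i hi' g hg h hh s hs e
    have hh' : h ∈ par ρ {l | l < (⟨i + 1, hi'⟩ : Fin (m + 1))} := par_mono ρ (fun l hl => hl) hh
    obtain ⟨y, hy1, hy2, t, ht, hyt⟩ := main i ⟨i + 1, hi'⟩ (by rw [Fin.lt_def]; simp) φ g h s
      hg hh' hs e
    have hy : y ∈ par ρ ({l | i < l} ∩ {l | l < (⟨i + 1, hi'⟩ : Fin (m + 1))}) := by
      rw [← hρ.inter]; exact ⟨hy1, hy2⟩
    rw [par_empty ρ (by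
      ext l
      simp only [Set.mem_inter_iff, Set.mem_ofPred_eq, Set.mem_empty_iff_false, iff_false,
        Fin.lt_def]
      omega)] at hy
    rw [Subgroup.mem_bot.1 hy, one_mul] at hyt
    rw [hyt]; exact ht
  refine ⟨?_, ?_, ?_⟩
  · intro φ _ i
    rw [Set.eq_empty_iff_forall_notMem]
    rintro σ ⟨hσ, hσ2⟩
    obtain ⟨x, hx, w, hw, hxw⟩ := Set.mem_mul.1 hσ2
    rw [Set.mem_singleton_iff] at hw
    subst hw
    obtain ⟨a, ha, b, hb, rfl⟩ := decomp hi hc i hx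
    by_cases hil : i = Fin.last m
    · subst hil
      have hb' : b = 1 := by
        rw [par_empty ρ (by
          ext l
          simp only [Set.mem_ofPred_eq, Set.mem_empty_iff_false, iff_false, not_lt]
          exact Fin.le_last l)] at hb
        exact Subgroup.mem_bot.1 hb
      subst hb'
      have h0 : (0 : Fin (m + 1)) < Fin.last m := by
        rw [Fin.lt_def]; simp; omega
      obtain ⟨y, hy1, hy2, t, ht, hyt⟩ := main 0 (Fin.last m) h0 φ (ρ (Fin.last m)) a⁻¹ σ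
        (mem_par ρ h0) (inv_mem ha) hσ (by rw [← hxw]; group)
      have ht' : t = y⁻¹ * ρ (Fin.last m) := by rw [hyt]; group
      have hm' : m - 1 < m := by omega
      have hlast : (⟨m - 1, hm'⟩ : Fin m).succ = Fin.last m := by
        rw [Fin.ext_iff]; simp; omega
      have h4 := (hA φ).c1 1 (one_mem _) ⟨m - 1, hm'⟩
      rw [Set.eq_empty_iff_forall_notMem] at h4
      refine h4 t ⟨?_, Set.mem_mul.2 ⟨y⁻¹, ?_, ρ (Fin.last m), ?_, ht'.symm⟩⟩
      · rw [cj_one]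
        refine ⟨ht, ?_⟩
        rw [e0]
        change t ∈ par ρ {l | 0 < l}
        rw [ht']
        exact mul_mem (inv_mem hy1) (mem_par ρ h0)
      · refine inv_mem ?_
        have hy3 : y ∈ par ρ ({l | 0 < l} ∩ {l | l < Fin.last m}) := by
          rw [← hρ.inter]; exact ⟨hy1, hy2⟩
        have hy4 : y ∈ par (fun i : Fin m => ρ i.succ) {l | l < (⟨m - 1, hm'⟩ : Fin m)} := by
          rw [par_comp, succ_lt, hlast]; exact hy3
        exact par_mono _ (fun l hl => ne_of_lt hl) hy4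
      · rw [Set.mem_singleton_iff, hlast]
    · obtain ⟨i', rfl⟩ := Fin.exists_castSucc_eq.2 hil
      have hbS : b⁻¹ ∈ cj S φ := by
        refine main3 φ i'.castSucc (by simp) b⁻¹ (inv_mem hb)
          (a * ρ i'.castSucc) ?_ σ⁻¹ (inv_mem hσ) ?_
        · refine mul_mem (par_mono ρ ?_ ha) (mem_par ρ ?_)
          · intro l hl
            have : (l : ℕ) < (i'.castSucc : ℕ) := hl
            simp only [Set.mem_ofPred_eq]
            omega
          · simp only [Set.mem_ofPred_eq]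
            omega
        · rw [← hxw, comm_lt_gt hi hc _ ha hb]; group
      have hab : a * ρ i'.castSucc ∈ cj S φ := by
        have : a * ρ i'.castSucc = b⁻¹ * σ := by
          rw [← hxw, comm_lt_gt hi hc _ ha hb]; group
        rw [this]
        exact mul_mem hbS hσ
      have ha' : a ∈ par (fun i : Fin m => ρ i.castSucc) {l | l < i'} := by
        rw [par_comp, cast_lt]; exact ha
      have h4 := (hB φ).c1 1 (one_mem _) i'
      rw [Set.eq_empty_iff_forall_notMem] at h4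
      refine h4 (a * ρ i'.castSucc) ⟨?_, Set.mem_mul.2 ⟨a, ?_, ρ i'.castSucc, ?_, rfl⟩⟩
      · rw [cj_one]
        refine ⟨hab, mul_mem (par_mono _ (Set.subset_univ _) ha') ?_⟩
        exact mem_par (fun i : Fin m => ρ i.castSucc) (Set.mem_univ i')
      · exact par_mono _ (fun l hl => ne_of_lt hl) ha'
      · rw [Set.mem_singleton_iff]
  · intro φ _ i k j hik hkj g hg
    obtain ⟨hg1, hg2⟩ := hg
    obtain ⟨h, hh, s, hs, e⟩ := Set.mem_mul.1 hg2
    obtain ⟨y, hy1, hy2, t, ht, hyt⟩ := main i j (lt_trans hik hkj) φ g h s hg1 hh hs e.symm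
    refine Set.mem_mul.2 ⟨y, Set.mem_mul.2 ⟨1, one_mem _, y, ⟨hy1, hy2⟩, by simp⟩, t, ht,
      hyt.symm⟩
  · intro i hi' g hg
    obtain ⟨hg1, hg2⟩ := hg
    obtain ⟨h, hh, s, hs, e⟩ := Set.mem_mul.1 hg2
    have := main3 1 i hi' g hg1 h hh s (by rw [cj_one]; exact hs) e.symm
    rw [cj_one] at this
    exact this

end

end Pool.Agent.Q180.SC
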